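import Pool.Agent.Q178.CPX.TaskConcA
import Pool.Agent.Q178.CPX.TaskApprox
import Pool.Agent.Q178.CPX.TaskC0
import Pool.Agent.Q178.CPX.TaskC1
import Pool.Agent.Q178.CPX.TaskC2
import Pool.Agent.Q178.CPX.TaskChoice
import Pool.Agent.Q178.CPX.TaskConcB
import Pool.Agent.Q178.CPX.TaskDense
import Pool.Agent.Q178.CPX.TaskIVT
import Pool.Agent.Q178.CPX.TaskInc
import Pool.Agent.Q178.CPX.TaskInc2
import Pool.Agent.Q178.CPX.TaskInc3
import Pool.Agent.Q178.CPX.TaskInj
import Pool.Agent.Q178.CPX.TaskIrr
import Pool.Agent.Q178.CPX.TaskKron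
import Pool.Agent.Q178.CPX.TaskLow
import Pool.Agent.Q178.CPX.TaskMain
import Pool.Agent.Q178.CPX.TaskMaxMid
import Pool.Agent.Q178.CPX.TaskMaxSide
import Pool.Agent.Q178.CPX.TaskPoly
import Pool.Agent.Q178.CPX.TaskPos
import Pool.Agent.Q178.CPX.TaskRho
import Pool.Agent.Q178.CPX.TaskShift
import Pool.Agent.Q178.CPX.TaskSign
import Pool.Agent.Q178.CPX.TaskSub
import Pool.Agent.Q178.CPX.TaskSym
import Pool.Agent.Q178.CPX.TaskTriple
import Pool.Agent.Q178.CPX.TaskUp

/-!
MP_57aba6_an, Q2 (disproof): a four point set `X = {-1, -a, a, 1}` with `CP(X) = C(X)`.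

The three integrals of `∏ |x - x_i|^(n_i)` between consecutive points are controlled by Laplace
concentration; `a` is chosen so that the maxima over the three intervals can be balanced by
symmetric exponents `(k, l, l, k)` with `l/k → ρ`, `ρ` irrational, and so that Kronecker's theorem
applies to the two logarithmic ratios.
-/

namespace Pool.Agent.Results.MP_57aba6_an.FourPoints

/-- all complex critical points (zeros of the derivative) of the real polynomial `p` lie in `X` -/
def CriticalPointsIn (X : Set ℝ) (p : Polynomial ℝ) : Prop :=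
  ∀ z : ℂ, Polynomial.aeval z (Polynomial.derivative p) = 0 → ∃ x ∈ X, z = (x : ℂ)

/-- the closure in `C(X, ℝ)` of the restrictions to `X` of the real polynomials whose critical
points all lie in `X` -/
def CP (X : Set ℝ) : Set C(X, ℝ) :=
  closure {g : C(X, ℝ) | ∃ p : Polynomial ℝ, CriticalPointsIn X p ∧ ∀ x : X, g x = p.eval (x : ℝ)}

open Pool.Agent.Q178.CPX in
theorem taskMain : Pool.Agent.Q178.CPX.TaskMain :=
  have hInc3 := TaskInc3.main TaskConcB.main TaskMaxSide.main
  have hInc2 := TaskInc2.main TaskConcB.main TaskMaxMid.main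
  have hInc := TaskInc.main TaskPos.main TaskSym.main hInc3 hInc2
  have hChoice := taskChoice TaskC0.main TaskC1.main TaskC2.main
  have hRho := TaskRho.main (TaskLow.main TaskMaxSide.main) (TaskUp.main TaskPos.main)
  have hIrr := TaskIrr.main TaskIVT.main TaskInj.main
  have hTriple := TaskTriple.main hChoice hRho TaskSub.main (TaskKron.main TaskDense.main)
    (TaskShift.main hInc) hIrr TaskSym.main
  TaskMain.main (TaskApprox.main hTriple TaskSign.main TaskPos.main) TaskPoly.main

/-- **MP_57aba6_an, Q2** (disproof): there is a disconnected compact set `X` of exactly four points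
with `CP(X) = C(X)`. -/
theorem result : ∃ X : Set ℝ, IsCompact X ∧ ¬ IsConnected X ∧ X.ncard = 4 ∧ CP X = Set.univ := by
  obtain ⟨a, ha, ha1, h⟩ := taskMain
  have hcomp : IsCompact ({-1, -a, a, 1} : Set ℝ) := (Set.toFinite _).isCompact
  refine ⟨{-1, -a, a, 1}, hcomp, ?_, ?_, ?_⟩
  · intro hc
    have hsub := hc.isPreconnected.Icc_subset (a := a) (b := 1) (by simp) (by simp)
    have hmem : (a + 1) / 2 ∈ ({-1, -a, a, 1} : Set ℝ) := hsub ⟨by linarith, by linarith⟩
    simp only [Set.mem_insert_iff, Set.mem_singleton_iff] at hmem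
    rcases hmem with h | h | h | h <;> linarith
  · have h1 : (-1 : ℝ) ∉ ({-a, a, 1} : Set ℝ) := by
      simp only [Set.mem_insert_iff, Set.mem_singleton_iff, not_or]
      refine ⟨?_, ?_, ?_⟩ <;> intro h <;> linarith
    have h2 : (-a : ℝ) ∉ ({a, 1} : Set ℝ) := by
      simp only [Set.mem_insert_iff, Set.mem_singleton_iff, not_or]
      refine ⟨?_, ?_⟩ <;> intro h <;> linarith
    have h3 : (a : ℝ) ∉ ({1} : Set ℝ) := by
      simp only [Set.mem_singleton_iff]
      intro h; linarith
    rw [Set.ncard_insert_of_notMem h1, Set.ncard_insert_of_notMem h2,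
      Set.ncard_insert_of_notMem h3, Set.ncard_singleton]
  · have : CompactSpace ({-1, -a, a, 1} : Set ℝ) := isCompact_iff_compactSpace.mp hcomp
    refine Set.eq_univ_of_forall fun f => ?_
    refine Metric.mem_closure_iff.mpr fun ε hε => ?_
    classical
    obtain ⟨p, hp, hpf⟩ := h (fun x => if hx : x ∈ ({-1, -a, a, 1} : Set ℝ) then f ⟨x, hx⟩ else 0)
      ε hε
    refine ⟨⟨fun x => p.eval (x : ℝ), by fun_prop⟩, ⟨p, hp, fun x => rfl⟩, ?_⟩
    rw [ContinuousMap.dist_lt_iff hε]
    intro x
    have := hpf x x.2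
    rw [dif_pos x.2] at this
    rw [dist_comm, Real.dist_eq]
    exact this

end Pool.Agent.Results.MP_57aba6_an.FourPoints
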